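import Pool.Agent.J4H98.LI.Zu

/-! Project LI of helper16, jobs CMP and EQ. -/

set_option autoImplicit false

open Set MeasureTheory Filter Topology
open scoped ENNReal NNReal

namespace Pool.Agent.J4H98.LI

open Pool.Agent.J4H16.LI

variable {Φ : ℝ → ℝ → ℝ} {g : ℝ → ℝ}

/-- reflection with time reversed -/
theorem arc_refl {s B Y : ℝ} {u : ℝ → ℝ} (h : Arc Φ g s B Y u) :
    Arc (rΦ Φ) g (-s) Y B (fun y => u (-y)) where
  hB := h.hY
  hY := h.hB
  cont := h.cont.comp continuous_neg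
  out := fun y hy => h.out (-y) (fun h' => hy ⟨by linarith [h'.2], by linarith [h'.1]⟩)
  pos := fun y hy => h.pos (-y) ⟨by linarith [hy.2], by linarith [hy.1]⟩
  der := fun y hy => by
    have h1 := h.der (-y) ⟨by linarith [hy.2], by linarith [hy.1]⟩
    have h2 := h1.comp y (hasDerivAt_neg' y)
    refine h2.congr_deriv ?_
    simp only [rΦ]
    ring

/-- a function with value 0 and negative derivative is negative on the right -/
theorem neg_right {D : ℝ → ℝ} {d z : ℝ} (h : HasDerivAt D d z) (h0 : D z = 0) (hd : d < 0) :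
    ∀ᶠ w in 𝓝[>] z, D w < 0 := by
  have h1 := (hasDerivAt_iff_tendsto_slope.1 h).eventually (gt_mem_nhds hd)
  have h2 : ∀ᶠ w in 𝓝[>] z, slope D z w < 0 :=
    h1.filter_mono (nhdsWithin_mono z fun w hw => (ne_of_gt hw))
  filter_upwards [h2, self_mem_nhdsWithin] with w hw hw'
  have hw'' : 0 < w - z := sub_pos.2 hw'
  rw [slope_def_field, h0, sub_zero] at hw
  exact (div_neg_iff.1 hw).resolve_left (fun h => absurd h.2 (not_lt.2 hw''.le)) |>.1

/-- if `D` can only cross zero downwards, it stays positive on the left of a positive value -/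
theorem down {D : ℝ → ℝ} (hD : Continuous D) {a b y₁ : ℝ} (hy₁ : y₁ ∈ Ioo a b) (h1 : 0 < D y₁)
    (hZ : ∀ z ∈ Ioo a b, D z = 0 → ∀ᶠ w in 𝓝[>] z, D w < 0) : ∀ y ∈ Ioc a y₁, 0 < D y := by
  intro y hy
  by_contra hcon
  rw [not_lt] at hcon
  have hyne : y ≠ y₁ := by
    rintro rfl
    linarith
  have hlt : y < y₁ := lt_of_le_of_ne hy.2 hyne
  have hcomp : IsCompact (Icc y y₁ ∩ {z | D z ≤ 0}) :=
    isCompact_Icc.inter_right (isClosed_le hD continuous_const)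
  obtain ⟨m, hm⟩ := hcomp.exists_isGreatest ⟨y, ⟨le_rfl, hlt.le⟩, hcon⟩
  obtain ⟨⟨hmI, hmD⟩, hmax⟩ := hm
  have hm1 : m < y₁ := by
    refine lt_of_le_of_ne hmI.2 ?_
    rintro rfl
    have : D m ≤ 0 := hmD
    linarith
  have e1 : ∀ᶠ w in 𝓝[>] m, 0 < D w := by
    filter_upwards [Ioo_mem_nhdsGT hm1] with w hw
    by_contra hc
    have := hmax ⟨⟨hmI.1.trans hw.1.le, hw.2.le⟩, (not_lt.1 hc : D w ≤ 0)⟩
    exact absurd hw.1 (not_lt.2 this)
  have e2 : ∀ᶠ w in 𝓝[>] m, D w < 0 := by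
    rcases lt_or_eq_of_le (show D m ≤ 0 from hmD) with h | h
    · exact (hD.continuousAt.eventually (gt_mem_nhds h)).filter_mono nhdsWithin_le_nhds
    · exact hZ m ⟨lt_of_lt_of_le hy.1 hmI.1, hm1.trans hy₁.2⟩ h
  obtain ⟨w, hw1, hw2⟩ := (e1.and e2).exists
  linarith

theorem t_CMP : S_AX → S_ZU → S_CMP := by
  intro hAX hZU Φ g hS s₁ s₂ B₁ Y₁ B₂ Y₂ u₁ u₂ hs h₁ h₂ hY hor
  have hB1 := h₁.hB
  have hB2 := h₂.hB
  have hY1 := h₁.hY
  have hY2 := h₂.hY
  set D : ℝ → ℝ := fun y => u₁ y - u₂ y with hD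
  have hDc : Continuous D := h₁.cont.sub h₂.cont
  -- zeros
  have hZ : ∀ z ∈ Ioo (-B₁) Y₁, D z = 0 → ∀ᶠ w in 𝓝[>] z, D w < 0 := by
    intro z hz h0
    have he : u₁ z = u₂ z := sub_eq_zero.1 h0
    have hp := h₁.pos z hz
    have hz2 : z ∈ Ioo (-B₂) Y₂ := pos_mem h₂ (he ▸ hp)
    rcases lt_or_eq_of_le hs with hlt | heq
    · have hd := (h₁.der z hz).sub (h₂.der z hz2)
      refine neg_right hd h0 ?_
      rw [← he]
      have hg := g_ne hS hp
      have e1 : -(Φ (u₁ z) z - s₁ * u₁ z) / g (u₁ z) - -(Φ (u₁ z) z - s₂ * u₁ z) / g (u₁ z) =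
          -((s₂ - s₁) * u₁ z / g (u₁ z)) := by ring
      rw [e1]
      have : 0 < (s₂ - s₁) * u₁ z / g (u₁ z) :=
        div_pos (mul_pos (by linarith) hp) hg
      linarith
    · exfalso
      subst heq
      have h3 := hZU Φ g hS s₁ B₁ Y₁ B₂ Y₂ u₁ u₂ h₁ h₂ z hz he
      rcases hor with h | h
      · exact lt_irrefl _ h
      · rw [h3.2.1] at h
        exact lt_irrefl _ h
  -- near the top
  have htop : ∃ c, -B₁ < c ∧ c < Y₁ ∧ ∀ y ∈ Ioo c Y₁, 0 < D y := by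
    rcases lt_or_eq_of_le hY with hlt | heq
    · refine ⟨Y₂, by linarith, hlt, fun y hy => ?_⟩
      have e1 := h₂.out y (fun h => absurd h.2 (not_lt.2 hy.1.le))
      have e2 := h₁.pos y ⟨by linarith [hy.1], hy.2⟩
      rw [hD]
      simp only
      rw [e1]
      linarith
    · have hlt : s₁ < s₂ := hor.resolve_right (by rw [heq]; exact lt_irrefl _)
      subst heq
      obtain ⟨δ, hδ, hle⟩ := hAX (rΦ Φ) g hS.rfl' (-s₂) (-s₁) Y₂ B₂ B₁ (fun y => u₂ (-y))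
        (fun y => u₁ (-y)) (by linarith) (arc_refl h₂) (arc_refl h₁)
      have hnn : ∀ y ∈ Ioo (Y₂ - δ) Y₂, 0 ≤ D y := by
        intro y hy
        have := hle (-y) ⟨by linarith [hy.2], by linarith [hy.1]⟩
        simp only [neg_neg] at this
        rw [hD]
        simp only
        linarith
      refine ⟨max (Y₂ - δ) 0, lt_of_lt_of_le (by linarith) (le_max_right _ _),
        max_lt (by linarith) hY2, fun y hy => ?_⟩
      have hy1 : Y₂ - δ < y := (le_max_left _ _).trans_lt hy.1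
      have hy0 : 0 < y := (le_max_right _ _).trans_lt hy.1
      refine lt_of_le_of_ne (hnn y ⟨hy1, hy.2⟩) fun h0 => ?_
      have e1 := hZ y ⟨by linarith, hy.2⟩ h0.symm
      have e2 : ∀ᶠ w in 𝓝[>] y, 0 ≤ D w := by
        filter_upwards [Ioo_mem_nhdsGT hy.2] with w hw
        exact hnn w ⟨hy1.trans hw.1, hw.2⟩
      obtain ⟨w, hw1, hw2⟩ := (e1.and e2).exists
      linarith
  obtain ⟨c, hc1, hc2, hc⟩ := htop
  have hpos : ∀ y ∈ Ioo (-B₁) Y₁, 0 < D y := by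
    intro y hy
    obtain ⟨y₁, hy1, hy2⟩ := exists_between (max_lt hc2 hy.2)
    have hcy : c < y₁ := (le_max_left _ _).trans_lt hy1
    have hyy : y < y₁ := (le_max_right _ _).trans_lt hy1
    exact down hDc ⟨hc1.trans hcy, hy2⟩ (hc y₁ ⟨hcy, hy2⟩) hZ y ⟨hy.1, hyy.le⟩
  refine ⟨?_, fun y hy => sub_pos.1 (hpos y hy)⟩
  by_contra hcon
  rw [not_lt] at hcon
  rcases lt_or_eq_of_le hcon with hlt | heq
  · -- B₁ < B₂
    have e1 : 0 < u₂ (-B₁) := h₂.pos (-B₁) ⟨by linarith, by linarith⟩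
    have e2 : u₁ (-B₁) = 0 := h₁.out (-B₁) (fun h => lt_irrefl _ h.1)
    have e3 : 0 ≤ D (-B₁) := by
      have hcl : IsClosed {z | 0 ≤ D z} := isClosed_le continuous_const hDc
      have hmem : -B₁ ∈ closure (Ioo (-B₁) Y₁) := by
        rw [closure_Ioo (by linarith)]
        exact ⟨le_rfl, by linarith⟩
      exact closure_minimal (fun w hw => (hpos w hw).le) hcl hmem
    rw [hD] at e3
    simp only at e3
    linarith
  · subst heq
    obtain ⟨δ, hδ, hle⟩ := hAX Φ g hS s₁ s₂ B₁ Y₁ Y₂ u₁ u₂ hs h₁ h₂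
    obtain ⟨y, hy1, hy2⟩ := exists_between (show -B₁ < min (-B₁ + δ) Y₁ from
      lt_min (by linarith) (by linarith))
    have e1 := hle y ⟨hy1, hy2.trans_le (min_le_left _ _)⟩
    have e2 := hpos y ⟨hy1, hy2.trans_le (min_le_right _ _)⟩
    rw [hD] at e2
    simp only at e2
    linarith

theorem t_EQ : S_AX → S_ZU → S_EQ := by
  intro hAX hZU Φ g hS s B₁ B₂ Y u₁ u₂ h₁ h₂
  have hB1 := h₁.hB
  have hY := h₁.hY
  obtain ⟨δ, hδ, hle⟩ := hAX (rΦ Φ) g hS.rfl' (-s) (-s) Y B₁ B₂ (fun y => u₁ (-y))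
    (fun y => u₂ (-y)) le_rfl (arc_refl h₁) (arc_refl h₂)
  obtain ⟨δ', hδ', hle'⟩ := hAX (rΦ Φ) g hS.rfl' (-s) (-s) Y B₂ B₁ (fun y => u₂ (-y))
    (fun y => u₁ (-y)) le_rfl (arc_refl h₂) (arc_refl h₁)
  obtain ⟨y, hy1, hy2⟩ := exists_between (show -Y < min (min (-Y + δ) (-Y + δ')) 0 from
    lt_min (lt_min (by linarith) (by linarith)) (by linarith))
  have a1 : y < -Y + δ := hy2.trans_le ((min_le_left _ _).trans (min_le_left _ _))
  have a2 : y < -Y + δ' := hy2.trans_le ((min_le_left _ _).trans (min_le_right _ _))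
  have a3 : y < 0 := hy2.trans_le (min_le_right _ _)
  have e1 := hle y ⟨hy1, a1⟩
  have e2 := hle' y ⟨hy1, a2⟩
  have h3 := hZU Φ g hS s B₁ Y B₂ Y u₁ u₂ h₁ h₂ (-y) ⟨by linarith, by linarith⟩
    (le_antisymm e1 e2)
  exact ⟨h3.1, h3.2.2⟩

end Pool.Agent.J4H98.LI
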