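import Pool.Agent.J4H16.LI.Stm

/-! Project LI of helper16, job ZU: two arcs with the same parameter which meet are equal. -/

set_option autoImplicit false

open Set MeasureTheory Filter Topology
open scoped ENNReal NNReal

namespace Pool.Agent.J4H98.LI

open Pool.Agent.J4H16.LI

variable {Φ : ℝ → ℝ → ℝ} {g : ℝ → ℝ}

theorem pos_mem {s B Y : ℝ} {u : ℝ → ℝ} (h : Arc Φ g s B Y u) {y : ℝ} (hy : 0 < u y) :
    y ∈ Ioo (-B) Y := by
  by_contra hcon
  rw [h.out y hcon] at hy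
  exact lt_irrefl _ hy

theorem g_ne (hS : Sys Φ g) {x : ℝ} (hx : 0 < x) : 0 < g x := by
  have := hS.posg x hx.ne'
  exact (mul_pos_iff_of_pos_left hx).1 this

theorem loc_uni (hS : Sys Φ g) {s B₁ Y₁ B₂ Y₂ : ℝ} {u₁ u₂ : ℝ → ℝ} (h₁ : Arc Φ g s B₁ Y₁ u₁)
    (h₂ : Arc Φ g s B₂ Y₂ u₂) {y : ℝ} (hy₁ : y ∈ Ioo (-B₁) Y₁) (he : u₁ y = u₂ y) :
    u₁ =ᶠ[𝓝 y] u₂ := by
  have hpos := h₁.pos y hy₁
  have hy₂ : y ∈ Ioo (-B₂) Y₂ := pos_mem h₂ (he ▸ hpos)
  set F : ℝ × ℝ → ℝ := fun z => -(Φ z.1 z.2 - s * z.1) / g z.1 with hF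
  have hg : g (u₁ y) ≠ 0 := (g_ne hS hpos).ne'
  have hFc : ContDiffAt ℝ 1 F (u₁ y, y) := by
    refine ContDiffAt.div ?_ ?_ hg
    · exact ((hS.smΦ.contDiffAt).sub (contDiffAt_const.mul contDiffAt_fst)).neg
    · exact (hS.smg.contDiffAt (x := u₁ y)).comp (u₁ y, y) contDiffAt_fst
  obtain ⟨K, t, ht, hK⟩ := hFc.exists_lipschitzOnWith
  refine ODE_solution_unique_of_eventually (v := fun y x => F (x, y))
    (s := fun y => {x | (x, y) ∈ t}) (K := K) ?_ ?_ ?_ he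
  · filter_upwards with z
    have := hK.comp (LipschitzWith.prodMk_right z).lipschitzOnWith
      (fun x (hx : x ∈ {x | (x, z) ∈ t}) => hx)
    rw [mul_one] at this
    exact this
  · have hc : ContinuousAt (fun z => (u₁ z, z)) y := (h₁.cont.prodMk continuous_id).continuousAt
    filter_upwards [Ioo_mem_nhds hy₁.1 hy₁.2, hc.preimage_mem_nhds ht] with z hz hz'
    exact ⟨h₁.der z hz, hz'⟩
  · have hc : ContinuousAt (fun z => (u₂ z, z)) y := (h₂.cont.prodMk continuous_id).continuousAt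
    have ht' : t ∈ 𝓝 (u₂ y, y) := by rw [← he]; exact ht
    filter_upwards [Ioo_mem_nhds hy₂.1 hy₂.2, hc.preimage_mem_nhds ht'] with z hz hz'
    exact ⟨h₂.der z hz, hz'⟩

theorem t_ZU : S_ZU := by
  intro Φ g hS s B₁ Y₁ B₂ Y₂ u₁ u₂ h₁ h₂ y hy he
  have hpos := h₁.pos y hy
  have hy₂ : y ∈ Ioo (-B₂) Y₂ := pos_mem h₂ (he ▸ hpos)
  set a := max (-B₁) (-B₂) with ha
  set b := min Y₁ Y₂ with hb
  have hB1 := h₁.hB
  have hB2 := h₂.hB
  have hY1 := h₁.hY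
  have hY2 := h₂.hY
  have hab : a < b := by
    rw [ha, hb]
    exact max_lt (lt_min (by linarith) (by linarith)) (lt_min (by linarith) (by linarith))
  have hcl : IsClosed {z | u₁ z = u₂ z} := isClosed_eq h₁.cont h₂.cont
  have hopen : IsOpen (Ioo a b ∩ {z | u₁ z = u₂ z}) := by
    rw [isOpen_iff_mem_nhds]
    rintro z ⟨hz, hz'⟩
    have hz1 : z ∈ Ioo (-B₁) Y₁ := ⟨(le_max_left _ _).trans_lt hz.1, hz.2.trans_le (min_le_left _ _)⟩
    exact Filter.inter_mem (Ioo_mem_nhds hz.1 hz.2) (loc_uni hS h₁ h₂ hz1 hz')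
  have hsub : Ioo a b ⊆ Ioo a b ∩ {z | u₁ z = u₂ z} := by
    refine isPreconnected_Ioo.subset_of_closure_inter_subset hopen ?_ ?_
    · exact ⟨y, ⟨max_lt hy.1 hy₂.1, lt_min hy.2 hy₂.2⟩,
        ⟨max_lt hy.1 hy₂.1, lt_min hy.2 hy₂.2⟩, he⟩
    · rintro z ⟨hz, hz'⟩
      exact ⟨hz', closure_minimal inter_subset_right hcl hz⟩
  have hIcc : ∀ z ∈ Icc a b, u₁ z = u₂ z := by
    intro z hz
    rw [← closure_Ioo hab.ne] at hz
    exact closure_minimal (fun w hw => (hsub hw).2) hcl hz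
  have hY : Y₁ = Y₂ := by
    by_contra hne
    rcases lt_or_gt_of_ne hne with h | h
    · have e1 := hIcc Y₁ ⟨by rw [ha]; exact max_le (by linarith) (by linarith),
        by rw [hb, min_eq_left h.le]⟩
      rw [h₁.out Y₁ (fun h' => lt_irrefl _ h'.2)] at e1
      exact absurd e1 (h₂.pos Y₁ ⟨by linarith, h⟩).ne
    · have e1 := hIcc Y₂ ⟨by rw [ha]; exact max_le (by linarith) (by linarith),
        by rw [hb, min_eq_right (le_of_lt h)]⟩
      rw [h₂.out Y₂ (fun h' => lt_irrefl _ h'.2)] at e1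
      exact absurd e1 (h₁.pos Y₂ ⟨by linarith, h⟩).ne'
  have hB : B₁ = B₂ := by
    by_contra hne
    rcases lt_or_gt_of_ne hne with h | h
    · have e1 := hIcc (-B₁) ⟨by rw [ha]; exact max_le le_rfl (by linarith),
        by rw [hb]; exact le_min (by linarith) (by linarith)⟩
      rw [h₁.out (-B₁) (fun h' => lt_irrefl _ h'.1)] at e1
      exact absurd e1 (h₂.pos (-B₁) ⟨by linarith, by linarith⟩).ne
    · have e1 := hIcc (-B₂) ⟨by rw [ha]; exact max_le (by linarith) le_rfl,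
        by rw [hb]; exact le_min (by linarith) (by linarith)⟩
      rw [h₂.out (-B₂) (fun h' => lt_irrefl _ h'.1)] at e1
      exact absurd e1 (h₁.pos (-B₂) ⟨by linarith, by linarith⟩).ne'
  refine ⟨hB, hY, ?_⟩
  subst hB hY
  funext z
  by_cases hz : z ∈ Ioo (-B₁) Y₁
  · refine hIcc z ⟨?_, ?_⟩
    · rw [ha, max_self]; exact hz.1.le
    · rw [hb, min_self]; exact hz.2.le
  · rw [h₁.out z hz, h₂.out z hz]

end Pool.Agent.J4H98.LI
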